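import Pool.Agent.Helper68.SG2.GoalsC
import Pool.Agent.Helper12.SGB.All
import Pool.Agent.Helper13.SGC.EXPC

/-!
# Project SG, stage 2 (MP_a41896_nt), packet SH2-ARRT: the arrays exist (helper90)
-/

set_option autoImplicit false

open MvPolynomial

namespace Pool.Agent.Helper90.SG2

open WeierstrassCurve Height
open Pool.Agent.Helper29.BL Pool.Agent.Helper92.Ru Pool.Agent.Helper42.SG
open Pool.Agent.Helper77.SGC (N0 Arr sh)
open Pool.Agent.Helper68.SG2

noncomputable section

/-- the arrays of ECOEF (the proof is that of `Pool.Agent.Helper77.SGC.exists_arr`) -/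
theorem exists_arr (K : Type) [Field K] [NumberField K] (W : Affine K) :
    ∃ (B : AbsoluteValue K ℝ → ℝ) (D : ℕ), PlC B ∧ 0 < D ∧ ∀ e M,
      ∃ G : Bool → ℕ → Fin 2 → ℕ → ℕ → K, Arr W B D e M G := by
  obtain ⟨B, D, hB, hD, h⟩ := Pool.Agent.Helper12.SGB.th_ECOEF K W
  refine ⟨B, D, hB, hD, fun e M => ?_⟩
  have h' : ∀ (l : Bool) (m : ℕ), ∃ G : Fin 2 → ℕ → ℕ → K, m ≤ M →
      (∀ μ i g, G μ i g ≠ 0 → i + 2 * μ.val ≤ 2 * 4 ^ e * M ∧ g + 2 * μ.val ≤ 2 * M) ∧
      (∀ v μ i g, v (G μ i g) ≤ B v ^ (4 ^ e * M)) ∧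
      (∀ μ i g, _root_.IsIntegral ℤ ((D : K) ^ (4 ^ e * M) * G μ i g)) ∧
      ∀ (A : Type) [CommRing A] [Algebra K A] (x c η : A),
        η ^ 2 = Bf (W.map (algebraMap K A)) x * Bf (W.map (algebraMap K A)) c →
        (Pool.Agent.Helper42.SG.law (W.map (algebraMap K A)) e l x c η).1 ^ (M - m) *
          (Pool.Agent.Helper42.SG.law (W.map (algebraMap K A)) e l x c η).2 ^ m =
        ∑ μ : Fin 2, ∑ i ∈ Finset.range (2 * 4 ^ e * M + 1), ∑ g ∈ Finset.range (2 * M + 1),
          algebraMap K A (G μ i g) * (η ^ μ.val * x ^ i * c ^ g) := by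
    intro l m
    by_cases hm : m ≤ M
    · obtain ⟨G, hG⟩ := h e M m l hm
      exact ⟨G, fun _ => hG⟩
    · exact ⟨fun _ _ _ => 0, fun h => absurd h hm⟩
  choose G hG using h'
  exact ⟨G, fun l m hm => (hG l m hm).1, fun l m hm => (hG l m hm).2.1,
    fun l m hm => (hG l m hm).2.2.1, fun l m hm => (hG l m hm).2.2.2⟩

/-! ## The multiplicative group -/

/-- the exponent -/
def ex (q M : ℕ) (l : Bool) (i m : ℕ) : ℕ :=
  if l = true then q * (M - m + 1) - 1 - i else q * m + i

/-- the coefficients for the multiplicative group -/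
def SGm (K : Type) [Field K] (q M : ℕ) (l : Bool) (μ : Fin 2) (j g i m : ℕ) : K :=
  if i < q ∧ m ≤ M ∧ μ = 0 ∧ g = M - m then (((ex q M l i m).choose j : ℕ) : K) else 0

theorem ex_lt {q M : ℕ} (l : Bool) {i m : ℕ} (hi : i < q) (hm : m ≤ M) :
    ex q M l i m < q * (M + 1) := by
  unfold ex
  split_ifs
  · have h1 : q * (M - m + 1) ≤ q * (M + 1) := Nat.mul_le_mul_left _ (by omega)
    have h2 : 0 < q * (M + 1) := Nat.mul_pos (by omega) (Nat.succ_pos _)
    omega
  · have h1 : q * m ≤ q * M := Nat.mul_le_mul_left _ hm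
    have h2 : q * (M + 1) = q * M + q := by ring
    omega

theorem pow_exp {A : Type} [CommRing A] (u : A) (E N : ℕ) (h : E ≤ N) :
    u ^ E = ∑ j ∈ Finset.range (N + 1), (E.choose j : A) * (u - 1) ^ j := by
  have h1 : ∑ j ∈ Finset.range (E + 1), (E.choose j : A) * (u - 1) ^ j = u ^ E := by
    have h2 := add_pow (u - 1) 1 E
    simp only [one_pow, mul_one, sub_add_cancel] at h2
    rw [h2]
    exact Finset.sum_congr rfl fun j _ => mul_comm _ _
  rw [← h1]
  refine Finset.sum_subset (Finset.range_subset_range.2 (Nat.succ_le_succ h)) ?_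
  intro j _ hj
  rw [Finset.mem_range, not_lt] at hj
  rw [Nat.choose_eq_zero_of_lt (by omega), Nat.cast_zero, zero_mul]

theorem gm_sum {K A : Type} [Field K] [CommRing A] [Algebra K A] (q M : ℕ) (l : Bool) (i m : ℕ)
    (hi : i < q) (hm : m ≤ M) (u x0 : A) (N : ℕ) (hN : ex q M l i m ≤ N) :
    ∑ μ : Fin 2, ∑ j ∈ Finset.range (N + 1), ∑ g ∈ Finset.range (2 * M + 1),
      algebraMap K A (SGm K q M l μ j g i m) * ((u - 1) ^ j * x0 ^ g) =
      u ^ (ex q M l i m) * x0 ^ (M - m) := by
  rw [Fin.sum_univ_two]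
  have h1 : ∀ j g, SGm K q M l 1 j g i m = 0 := by
    intro j g
    unfold SGm
    rw [if_neg]
    rintro ⟨_, _, h, _⟩
    exact absurd h (by decide)
  have h2 : ∀ j, SGm K q M l 0 j (M - m) i m = (((ex q M l i m).choose j : ℕ) : K) := by
    intro j
    unfold SGm
    rw [if_pos ⟨hi, hm, rfl, rfl⟩]
  have h3 : ∀ j g, g ≠ M - m → SGm K q M l 0 j g i m = 0 := by
    intro j g hg
    unfold SGm
    rw [if_neg]
    rintro ⟨_, _, _, h⟩
    exact hg h
  have h4 : ∑ j ∈ Finset.range (N + 1), ∑ g ∈ Finset.range (2 * M + 1),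
      algebraMap K A (SGm K q M l 1 j g i m) * ((u - 1) ^ j * x0 ^ g) = 0 := by
    refine Finset.sum_eq_zero fun j _ => Finset.sum_eq_zero fun g _ => ?_
    rw [h1, map_zero, zero_mul]
  rw [h4, add_zero, pow_exp u _ N hN, Finset.sum_mul]
  refine Finset.sum_congr rfl fun j _ => ?_
  rw [Finset.sum_eq_single (M - m)]
  · rw [h2, map_natCast, mul_assoc]
  · intro g _ hg
    rw [h3 j g hg, map_zero, zero_mul]
  · intro h
    exact absurd (Finset.mem_range.2 (by omega)) h

theorem v_nat_le {K : Type} [Field K] (v : AbsoluteValue K ℝ) (n : ℕ) : v (n : K) ≤ cst v n := by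
  unfold cst
  split_ifs with hv
  · exact hv.apply_natCast_le_one
  · induction n with
    | zero => simp
    | succ n ih =>
      push_cast
      refine (v.add_le _ _).trans ?_
      rw [v.map_one]
      linarith

theorem choose_le {K : Type} [Field K] (v : AbsoluteValue K ℝ) (E j N : ℕ) (h : E ≤ N) :
    v ((E.choose j : ℕ) : K) ≤ cst v 2 ^ N := by
  refine (v_nat_le v _).trans ?_
  unfold cst
  split_ifs
  · rw [one_pow]
  · calc ((E.choose j : ℕ) : ℝ) ≤ ((2 ^ E : ℕ) : ℝ) := Nat.cast_le.2 (Nat.choose_le_two_pow _ _)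
      _ = 2 ^ E := by push_cast; rfl
      _ ≤ 2 ^ N := pow_le_pow_right₀ (by norm_num) h

/-! ## The curve -/

/-- the coefficients for a curve -/
def SCu {K : Type} [Field K] (q M : ℕ) (G : Bool → ℕ → Fin 2 → ℕ → ℕ → K) (l : Bool) (μ : Fin 2)
    (j g i m : ℕ) : K := if i < q ∧ m ≤ M then sh G l μ j g i m else 0

theorem one_le_cst {K : Type} [Field K] (v : AbsoluteValue K ℝ) : 1 ≤ cst v 2 := by
  unfold cst
  split_ifs
  · exact le_rfl
  · norm_num

theorem plc_mul {K : Type} [Field K] [AdmissibleAbsValues K] {B B' : AbsoluteValue K ℝ → ℝ}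
    (h : PlC B) (h' : PlC B') : PlC fun v => B v * B' v := by
  refine ⟨fun v => one_le_mul_of_one_le_of_one_le (h.one_le v) (h'.one_le v), ?_⟩
  refine (h.fin.add h'.fin).mono fun v _ hv => ?_
  rw [Real.log_mul (lt_of_lt_of_le one_pos (h.one_le v)).ne'
    (lt_of_lt_of_le one_pos (h'.one_le v)).ne']
  exact hv

theorem plc_cst {K : Type} [Field K] [AdmissibleAbsValues K] {c : ℝ} (hc : 1 ≤ c) :
    PlC (K := K) fun v => cst v c :=
  ⟨fun v => Pool.Agent.Helper29.BL.one_le_cst v hc, FS_log_cst c⟩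

/-- **ARRT** -/
theorem t_ARRT : Pool.Agent.Helper68.SG2.ARRT := by
  intro K _ _ T W
  have h0 := fun i => exists_arr K (W i)
  choose B D hB hD hA using h0
  refine ⟨fun i v => B i v * cst v 2, D, fun i => plc_mul (hB i) (plc_cst (by norm_num)), hD, ?_⟩
  intro n M e
  choose G hG using hA
  refine ⟨fun h l μ j g i m => if T (h % 2) = true then SGm K (4 ^ e (h / 2)) M l μ j g i m
    else SCu (4 ^ e (h / 2)) M (G (h % 2) (e (h / 2)) M) l μ j g i m, ?_⟩
  constructor
  · intro h _ hT l μ j g i m hS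
    rw [if_pos hT] at hS
    unfold SGm at hS
    split_ifs at hS with hc
    · obtain ⟨hi, hm, hμ, hg⟩ := hc
      have hj : j ≤ ex (4 ^ e (h / 2)) M l i m := by
        by_contra hlt
        apply hS
        rw [Nat.choose_eq_zero_of_lt (by omega), Nat.cast_zero]
      have hmM : m = M - g := by omega
      have hgM : g ≤ M := by omega
      refine ⟨hμ, hgM, ?_, ?_⟩
      · intro hl
        rw [hl] at hj
        unfold ex at hj
        rw [if_neg (by decide)] at hj
        have e1 : 4 ^ e (h / 2) * (M + 1) =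
            4 ^ e (h / 2) * m + 4 ^ e (h / 2) * g + 4 ^ e (h / 2) := by
          rw [← Nat.mul_add, ← Nat.mul_succ]
          congr 1
          omega
        omega
      · intro hl
        rw [hl] at hj
        unfold ex at hj
        rw [if_pos rfl, ← hg] at hj
        have e1 : 0 < 4 ^ e (h / 2) * (g + 1) := by positivity
        omega
    · exact absurd rfl hS
  · intro h _ hT l μ j g i m hS
    rw [if_neg (by rw [hT]; decide)] at hS
    unfold SCu at hS
    split_ifs at hS with hc
    · unfold sh at hS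
      split_ifs at hS with hij
      · have h1 := (hG (h % 2) (e (h / 2)) M).deg l m hc.2 μ (j - i) g hS
        refine ⟨?_, h1.2⟩
        have h2 := h1.1
        have h3 := hc.1
        unfold N0
        omega
      · exact absurd rfl hS
    · exact absurd rfl hS
  · intro h _ l μ j g i m v
    have b1 : 1 ≤ B (h % 2) v := (hB (h % 2)).one_le v
    have c1 : 1 ≤ cst v 2 := one_le_cst v
    have p1 : (0 : ℝ) ≤ (B (h % 2) v * cst v 2) ^ (4 ^ e (h / 2) * (M + 1)) := by positivity
    have p2 : cst v 2 ^ (4 ^ e (h / 2) * (M + 1)) ≤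
        (B (h % 2) v * cst v 2) ^ (4 ^ e (h / 2) * (M + 1)) :=
      pow_le_pow_left₀ (by positivity) (le_mul_of_one_le_left (by positivity) b1) _
    have p3 : B (h % 2) v ^ (4 ^ e (h / 2) * (M + 1)) ≤
        (B (h % 2) v * cst v 2) ^ (4 ^ e (h / 2) * (M + 1)) :=
      pow_le_pow_left₀ (by positivity) (le_mul_of_one_le_right (by positivity) c1) _
    split_ifs with hT
    · unfold SGm
      split_ifs with hc
      · exact (choose_le v _ _ _ (ex_lt l hc.1 hc.2.1).le).trans p2
      · rw [v.map_zero]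
        exact p1
    · unfold SCu
      split_ifs with hc
      · unfold sh
        split_ifs with hij
        · refine ((hG (h % 2) (e (h / 2)) M).bd l m hc.2 v μ (j - i) g).trans (le_trans ?_ p3)
          exact pow_le_pow_right₀ b1 (Nat.mul_le_mul_left _ (Nat.le_succ _))
        · rw [v.map_zero]
          exact p1
      · rw [v.map_zero]
        exact p1
  · intro h _ l μ j g i m
    have hD0 : ∀ k : ℕ, _root_.IsIntegral ℤ ((D (h % 2) : K) ^ k) := fun k =>
      (isIntegral_natCast (R := ℤ) (B := K) (D (h % 2))).pow k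
    split_ifs with hT
    · unfold SGm
      split_ifs with hc
      · exact (hD0 _).mul (isIntegral_natCast (R := ℤ) (B := K) _)
      · rw [mul_zero]
        exact isIntegral_zero
    · unfold SCu
      split_ifs with hc
      · unfold sh
        split_ifs with hij
        · have h1 := (hG (h % 2) (e (h / 2)) M).int l m hc.2 μ (j - i) g
          rw [Nat.mul_succ, pow_add, mul_comm (_ ^ _) ((D (h % 2) : K) ^ 4 ^ e (h / 2)), mul_assoc]
          exact (hD0 _).mul h1
        · rw [mul_zero]
          exact isIntegral_zero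
      · rw [mul_zero]
        exact isIntegral_zero
  · intro h hh i m hi hm A _ _ X Ψ lam hOn
    by_cases hT : T (h % 2) = true
    · have hN : ex (4 ^ e (h / 2)) M (lam h) i m ≤ N0 M (e (h / 2)) := by
        have h1 := ex_lt (lam h) hi hm
        have h2 : 4 ^ e (h / 2) * (M + 1) ≤ 2 * 4 ^ e (h / 2) * M + 4 ^ e (h / 2) := by
          have h3 : 4 ^ e (h / 2) * (M + 1) = 4 ^ e (h / 2) * M + 4 ^ e (h / 2) := by ring
          have h4 : 2 * 4 ^ e (h / 2) * M = 4 ^ e (h / 2) * M + 4 ^ e (h / 2) * M := by ring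
          omega
        unfold N0
        omega
      by_cases hl : lam h = true
      · have h5 := gm_sum (K := K) (4 ^ e (h / 2)) M (lam h) i m hi hm (Ψ h)
          (X (2 * n + h % 2)) _ hN
        unfold blk bas
        simp only [if_pos hT, if_pos hl]
        rw [h5]
        unfold ex
        rw [if_pos hl]
      · have h5 := gm_sum (K := K) (4 ^ e (h / 2)) M (lam h) i m hi hm (X h)
          (X (2 * n + h % 2)) _ hN
        unfold blk bas
        simp only [if_pos hT, if_neg hl]
        rw [h5]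
        unfold ex
        rw [if_neg hl]
    · have hT' : T (h % 2) = false := by
        simpa using hT
      have hη : (Ψ h * Ψ (2 * n + h % 2)) ^ 2 =
          Bf ((W (h % 2)).map (algebraMap K A)) (X h) *
            Bf ((W (h % 2)).map (algebraMap K A)) (X (2 * n + h % 2)) := by
        have e1 := (hOn h (by omega)).2 hT'
        have e2 : (2 * n + h % 2) % 2 = h % 2 := by omega
        have e3 := (hOn (2 * n + h % 2) (by omega)).2 (by rw [e2]; exact hT')
        rw [e2] at e3
        rw [mul_pow, e1, e3]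
        rfl
      have h5 := Pool.Agent.Helper13.SGC.shift_law (W (h % 2)) (B (h % 2)) (D (h % 2))
        (e (h / 2)) M (G (h % 2) (e (h / 2)) M) (hG (h % 2) (e (h / 2)) M) (lam h) m i hm hi A
        (X h) (X (2 * n + h % 2)) (Ψ h * Ψ (2 * n + h % 2)) hη
      unfold blk bas
      simp only [if_neg hT]
      have h6 : ∀ μ j g, SCu (4 ^ e (h / 2)) M (G (h % 2) (e (h / 2)) M) (lam h) μ j g i m =
          sh (G (h % 2) (e (h / 2)) M) (lam h) μ j g i m := by
        intro μ j g
        unfold SCu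
        rw [if_pos ⟨hi, hm⟩]
      simp only [h6]
      exact h5

end

end Pool.Agent.Helper90.SG2
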